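import Pool.Agent.Helper94.SV.Frame2

/-!
# Closure lemma of the class 4 world (TH-V, helper45)

`V5 G`: in every section `H/K` of `G` every `DLaw` set satisfies `v(a,b;c) = ([a,b]c)⁴ = 1`.
Then `([a,b]s)⁴ = 1` for `a, b` in a `DLaw` set `E` and every involution `s` with `(s d)⁴ = 1` for all `d ∈ E`
(`S`-letter), hence a maximal `DLaw` set is closed under commutators.
-/

set_option autoImplicit false
set_option linter.unusedSectionVars false

open Subgroup

namespace Pool.Agent.Helper45.SV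

open Pool.Agent.Helper94.SV.Frame

universe u

variable {G : Type u} [Group G]

/-- hereditary class 4 law -/
def V5 (G : Type u) [Group G] : Prop :=
  ∀ (H : Subgroup G) (K : Subgroup H) [K.Normal] (E : Set (H ⧸ K)), DLaw E →
    ∀ a ∈ E, ∀ b ∈ E, ∀ c ∈ E, (c2 a b * c) ^ 4 = 1

section group

/-- conjugate of `s` by `o ^ k` -/
def ff (s o : G) (k : ℤ) : G := o ^ (-k) * s * o ^ k

theorem ff_sq {s o : G} (hs : s * s = 1) (k : ℤ) : ff s o k * ff s o k = 1 := by
  unfold ff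
  have e : o ^ (-k) * s * o ^ k * (o ^ (-k) * s * o ^ k) = o ^ (-k) * (s * s) * o ^ k := by
    rw [zpow_neg]; group
  rw [e, hs, zpow_neg]; group

theorem ff_zero (s o : G) : ff s o 0 = s := by simp [ff]

theorem ff_step (s o : G) (k : ℤ) : o⁻¹ * ff s o k * o = ff s o (k + 1) := by
  unfold ff
  have e1 : o ^ (-(k + 1)) = o⁻¹ * o ^ (-k) := by
    rw [← zpow_neg_one, ← zpow_add]; congr 1; ring
  have e2 : o ^ (k + 1) = o ^ k * o := zpow_add_one _ _
  rw [e1, e2]
  simp only [mul_assoc]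

/-- `a (ab)^k a = (ab)^(-k)` -/
theorem rot_inv {a b : G} (ha : a * a = 1) (hb : b * b = 1) (k : ℤ) :
    a * (a * b) ^ k * a = (a * b) ^ (-k) := by
  have h1 : a * (a * b) * a⁻¹ = (a * b)⁻¹ := by
    have ha' : a⁻¹ = a := inv_eq_of_mul_eq_one_right ha
    have hb' : b⁻¹ = b := inv_eq_of_mul_eq_one_right hb
    rw [mul_inv_rev, ha', hb', ← mul_assoc, ha, one_mul]
  have h2 : a * (a * b) ^ k * a⁻¹ = (a * (a * b) * a⁻¹) ^ k := by
    exact (conj_zpow).symm
  have ha' : a⁻¹ = a := inv_eq_of_mul_eq_one_right ha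
  rw [h1, ha'] at h2
  rw [h2, inv_zpow, zpow_neg]

/-- every reflection lies in `E` -/
theorem refl_mem {E : Set G} (hE : DLaw E) {a b : G} (ha : a ∈ E) (hb : b ∈ E) (k : ℤ) :
    (a * b) ^ k * a ∈ E := by
  have ha2 := hE.inv a ha
  have hb2 := hE.inv b hb
  rcases Int.even_or_odd' k with ⟨m, hm | hm⟩
  · have e : (a * b) ^ k * a = (a * b) ^ m * a * ((a * b) ^ m)⁻¹ := by
      have h := rot_inv ha2 hb2 (-m)
      rw [neg_neg] at h
      have h1 : a * ((a * b) ^ m)⁻¹ = (a * b) ^ m * a := by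
        calc a * ((a * b) ^ m)⁻¹ = a * (a * b) ^ (-m) * (a * a) := by rw [ha2, mul_one, zpow_neg]
          _ = a * (a * b) ^ (-m) * a * a := by simp only [mul_assoc]
          _ = (a * b) ^ m * a := by rw [h]
      rw [mul_assoc, h1, ← mul_assoc, ← zpow_add, hm]
      congr 2
      ring
    rw [e]
    exact hE.conj _ _ ha
  · have e : (a * b) ^ k * a = (a * b) ^ m * (a * b * a) * ((a * b) ^ m)⁻¹ := by
      have h := rot_inv ha2 hb2 (-m)
      rw [neg_neg] at h
      have h1 : a * ((a * b) ^ m)⁻¹ = (a * b) ^ m * a := by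
        calc a * ((a * b) ^ m)⁻¹ = a * (a * b) ^ (-m) * (a * a) := by rw [ha2, mul_one, zpow_neg]
          _ = a * (a * b) ^ (-m) * a * a := by simp only [mul_assoc]
          _ = (a * b) ^ m * a := by rw [h]
      have h2 : (a * b) ^ m * (a * b * a) * ((a * b) ^ m)⁻¹ =
          (a * b) ^ m * (a * b) * (a * ((a * b) ^ m)⁻¹) := by simp only [mul_assoc]
      rw [h2, h1, hm]
      have h3 : (a * b) ^ m * (a * b) * ((a * b) ^ m * a) = (a * b) ^ m * (a * b) ^ (1 : ℤ) * (a * b) ^ m * a := by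
        simp only [mul_assoc, zpow_one]
      rw [h3, ← zpow_add, ← zpow_add]
      congr 2
      ring
    rw [e]
    have h4 : a * b * a ∈ E := by
      have := hE.conj a b hb
      rwa [inv_eq_of_mul_eq_one_right ha2] at this
    exact hE.conj _ _ h4

/-- `s` commutes with `e s e` for `e ∈ E` -/
theorem S_comm {E : Set G} (hE : DLaw E) {s : G} (hs : s * s = 1) (hS : ∀ d ∈ E, (s * d) ^ 4 = 1)
    {e : G} (he : e ∈ E) : Commute s (e * s * e) :=
  comm_of_four hs (hE.inv e he) (four_of_pow (hS e he))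

/-- even part and odd part commute -/
theorem ff_comm {E : Set G} (hE : DLaw E) {s : G} (hs : s * s = 1)
    (hS : ∀ d ∈ E, (s * d) ^ 4 = 1) {a b : G} (ha : a ∈ E) (hb : b ∈ E) (i j : ℤ) :
    Commute (ff s (a * b) i) (a * ff s (a * b) j * a) := by
  have ha2 := hE.inv a ha
  have hb2 := hE.inv b hb
  have he := refl_mem hE ha hb (i + j)
  have h1 := S_comm hE hs hS he
  -- conjugate by `(ab)^i`
  have h2 : Commute ((a * b) ^ (-i) * s * ((a * b) ^ (-i))⁻¹)
      ((a * b) ^ (-i) * ((a * b) ^ (i + j) * a * s * ((a * b) ^ (i + j) * a)) * ((a * b) ^ (-i))⁻¹) := by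
    have h3 : s * ((a * b) ^ (i + j) * a * s * ((a * b) ^ (i + j) * a)) =
        ((a * b) ^ (i + j) * a * s * ((a * b) ^ (i + j) * a)) * s := h1
    show _ * _ = _ * _
    set t := (a * b) ^ (i + j) * a * s * ((a * b) ^ (i + j) * a) with ht
    have e : ∀ x y : G, (a * b) ^ (-i) * x * ((a * b) ^ (-i))⁻¹ * ((a * b) ^ (-i) * y * ((a * b) ^ (-i))⁻¹) =
        (a * b) ^ (-i) * (x * y) * ((a * b) ^ (-i))⁻¹ := fun x y => by group
    rw [e, e, h3]
  have e1 : (a * b) ^ (-i) * s * ((a * b) ^ (-i))⁻¹ = ff s (a * b) i := by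
    unfold ff
    rw [zpow_neg, inv_inv]
  have e2 : (a * b) ^ (-i) * ((a * b) ^ (i + j) * a * s * ((a * b) ^ (i + j) * a)) * ((a * b) ^ (-i))⁻¹ =
      a * ff s (a * b) j * a := by
    unfold ff
    have r1 : (a * b) ^ (-i) * ((a * b) ^ (i + j) * a * s * ((a * b) ^ (i + j) * a)) * ((a * b) ^ (-i))⁻¹ =
        ((a * b) ^ (-i) * (a * b) ^ (i + j)) * a * s * ((a * b) ^ (i + j) * a * ((a * b) ^ (-i))⁻¹) := by
      simp only [mul_assoc]
    have r2 : (a * b) ^ (-i) * (a * b) ^ (i + j) = (a * b) ^ j := by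
      rw [← zpow_add]; congr 1; ring
    have r3 : (a * b) ^ j * a = a * (a * b) ^ (-j) := by
      have h := rot_inv ha2 hb2 j
      calc (a * b) ^ j * a = a * a * ((a * b) ^ j * a) := by rw [ha2, one_mul]
        _ = a * (a * (a * b) ^ j * a) := by simp only [mul_assoc]
        _ = a * (a * b) ^ (-j) := by rw [h]
    have r4 : (a * b) ^ (i + j) * a * ((a * b) ^ (-i))⁻¹ = (a * b) ^ j * a := by
      have h := rot_inv ha2 hb2 i
      have h5 : a * (a * b) ^ i = (a * b) ^ (-i) * a := by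
        calc a * (a * b) ^ i = a * (a * b) ^ i * (a * a) := by rw [ha2, mul_one]
          _ = a * (a * b) ^ i * a * a := by simp only [mul_assoc]
          _ = (a * b) ^ (-i) * a := by rw [h]
      rw [zpow_neg, inv_inv, mul_assoc, h5, ← mul_assoc, ← zpow_add]
      congr 2
      ring
    have r5 : (a * b) ^ j * a * s * ((a * b) ^ j * a) = a * ((a * b) ^ (-j) * s * (a * b) ^ j) * a := by
      rw [r3]
      have h := rot_inv ha2 hb2 (-j)
      rw [neg_neg] at h
      have h6 : a * (a * b) ^ (-j) = (a * b) ^ j * a := r3.symm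
      calc a * (a * b) ^ (-j) * s * (a * (a * b) ^ (-j)) = a * (a * b) ^ (-j) * s * ((a * b) ^ j * a) := by
            rw [h6]
        _ = a * ((a * b) ^ (-j) * s * (a * b) ^ j) * a := by simp only [mul_assoc]
    rw [r1, r2, r4]
    exact r5
  rw [e1, e2] at h2
  exact h2

/-- the even part -/
def N0 (s a b : G) : Subgroup G := closure (Set.range (ff s (a * b)))

/-- the odd part -/
def N1 (s a b : G) : Subgroup G := closure (Set.range (fun k => a * ff s (a * b) k * a))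

theorem s_mem_N0 (s a b : G) : s ∈ N0 s a b := by
  have : ff s (a * b) 0 ∈ N0 s a b := subset_closure ⟨0, rfl⟩
  rwa [ff_zero] at this

variable {E : Set G} (hE : DLaw E) {s : G} (hs : s * s = 1) (hS : ∀ d ∈ E, (s * d) ^ 4 = 1)
  {a b : G} (ha : a ∈ E) (hb : b ∈ E)

include hE hs hS ha hb

theorem N_comm {x y : G} (hx : x ∈ N0 s a b) (hy : y ∈ N1 s a b) : Commute x y := by
  have h1 : N0 s a b ≤ centralizer (N1 s a b : Set G) := by
    unfold N0
    rw [closure_le]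
    rintro _ ⟨i, rfl⟩
    rw [SetLike.mem_coe, mem_centralizer_iff]
    intro z hz
    have h2 : N1 s a b ≤ centralizer {ff s (a * b) i} := by
      unfold N1
      rw [closure_le]
      rintro _ ⟨j, rfl⟩
      rw [SetLike.mem_coe, mem_centralizer_singleton_iff]
      exact (ff_comm hE hs hS ha hb i j).symm
    exact mem_centralizer_singleton_iff.mp (h2 hz)
  have h3 := (mem_centralizer_iff.mp (h1 hx)) y hy
  exact h3.symm

omit hs hS hb in
theorem conj_a_N0 {x : G} (hx : x ∈ N0 s a b) : a * x * a ∈ N1 s a b := by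
  have ha2 := hE.inv a ha
  refine closure_induction (p := fun x _ => a * x * a ∈ N1 s a b) ?_ ?_ ?_ ?_ hx
  · rintro _ ⟨k, rfl⟩
    exact subset_closure ⟨k, rfl⟩
  · rw [mul_one, ha2]; exact one_mem _
  · intro x y _ _ h1 h2
    have e : a * (x * y) * a = a * x * a * (a * y * a) := by
      simp only [mul_assoc]; rw [canc ha2]
    rw [e]; exact mul_mem h1 h2
  · intro x _ h1
    have e : a * x⁻¹ * a = (a * x * a)⁻¹ := by
      rw [mul_inv_rev, mul_inv_rev, inv_eq ha2, mul_assoc]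
    rw [e]; exact inv_mem h1

omit hs hS hb in
theorem conj_a_N1 {x : G} (hx : x ∈ N1 s a b) : a * x * a ∈ N0 s a b := by
  have ha2 := hE.inv a ha
  refine closure_induction (p := fun x _ => a * x * a ∈ N0 s a b) ?_ ?_ ?_ ?_ hx
  · rintro _ ⟨k, rfl⟩
    have e : a * (a * ff s (a * b) k * a) * a = ff s (a * b) k := by
      simp only [mul_assoc]; rw [canc ha2, ha2, mul_one]
    show a * (a * ff s (a * b) k * a) * a ∈ _
    rw [e]
    exact subset_closure ⟨k, rfl⟩
  · rw [mul_one, ha2]; exact one_mem _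
  · intro x y _ _ h1 h2
    have e : a * (x * y) * a = a * x * a * (a * y * a) := by
      simp only [mul_assoc]; rw [canc ha2]
    rw [e]; exact mul_mem h1 h2
  · intro x _ h1
    have e : a * x⁻¹ * a = (a * x * a)⁻¹ := by
      rw [mul_inv_rev, mul_inv_rev, inv_eq ha2, mul_assoc]
    rw [e]; exact inv_mem h1

omit hs hS in
theorem rot_N0 {x : G} (hx : x ∈ N0 s a b) (m : ℤ) : (a * b) ^ (-m) * x * (a * b) ^ m ∈ N0 s a b := by
  refine closure_induction (p := fun x _ => (a * b) ^ (-m) * x * (a * b) ^ m ∈ N0 s a b) ?_ ?_ ?_ ?_ hx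
  · rintro _ ⟨k, rfl⟩
    have e : (a * b) ^ (-m) * ff s (a * b) k * (a * b) ^ m = ff s (a * b) (k + m) := by
      unfold ff
      have e1 : (a * b) ^ (-(k + m)) = (a * b) ^ (-m) * (a * b) ^ (-k) := by
        rw [← zpow_add]; congr 1; ring
      have e2 : (a * b) ^ (k + m) = (a * b) ^ k * (a * b) ^ m := zpow_add _ _ _
      rw [e1, e2]
      simp only [mul_assoc]
    rw [e]
    exact subset_closure ⟨k + m, rfl⟩
  · have e : (a * b) ^ (-m) * 1 * (a * b) ^ m = 1 := by rw [zpow_neg]; group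
    rw [e]; exact one_mem _
  · intro x y _ _ h1 h2
    have e : (a * b) ^ (-m) * (x * y) * (a * b) ^ m =
        (a * b) ^ (-m) * x * (a * b) ^ m * ((a * b) ^ (-m) * y * (a * b) ^ m) := by
      rw [zpow_neg]; group
    rw [e]; exact mul_mem h1 h2
  · intro x _ h1
    have e : (a * b) ^ (-m) * x⁻¹ * (a * b) ^ m = ((a * b) ^ (-m) * x * (a * b) ^ m)⁻¹ := by
      rw [zpow_neg]; group
    rw [e]; exact inv_mem h1

omit hs hS in
theorem b_eq (x : G) : b * x * b = a * ((a * b) ^ (-(-1 : ℤ)) * x * (a * b) ^ (-1 : ℤ)) * a := by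
  have ha2 := hE.inv a ha
  have hb2 := hE.inv b hb
  have e1 : (a * b) ^ (-(-1 : ℤ)) = a * b := by simp
  have e2 : (a * b) ^ (-1 : ℤ) = b * a := by
    rw [zpow_neg_one, mul_inv_rev, inv_eq ha2, inv_eq hb2]
  rw [e1, e2]
  simp only [mul_assoc]
  rw [canc ha2, ha2, mul_one]

omit hs hS in
theorem conj_b_N0 {x : G} (hx : x ∈ N0 s a b) : b * x * b ∈ N1 s a b := by
  rw [b_eq hE ha hb]
  exact conj_a_N0 hE ha (rot_N0 hE ha hb hx (-1))

omit hs hS in
theorem conj_b_N1 {x : G} (hx : x ∈ N1 s a b) : b * x * b ∈ N0 s a b := by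
  have ha2 := hE.inv a ha
  have hb2 := hE.inv b hb
  -- `b x b = o⁻¹ (a x a) o`
  have e : b * x * b = (a * b) ^ (-(1 : ℤ)) * (a * x * a) * (a * b) ^ (1 : ℤ) := by
    rw [zpow_neg_one, zpow_one, mul_inv_rev, inv_eq ha2, inv_eq hb2]
    simp only [mul_assoc]
    rw [canc ha2, canc ha2]
  rw [e]
  exact rot_N0 hE ha hb (conj_a_N1 hE ha hx) 1

/-- fourth powers of the even part are fixed by `a` and `b` -/
theorem four_fix {n : G} (hn : n ∈ N0 s a b) {c : G} (hc : c ∈ E)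
    (hcN : ∀ x ∈ N0 s a b, c * x * c ∈ N1 s a b) : c * n ^ 4 * c = n ^ 4 := by
  have hc2 := hE.inv c hc
  have h1 : (c * (n⁻¹ * c * n)) ^ 4 = 1 := by
    apply pow_of_four
    apply hE.four c hc
    have := hE.conj n⁻¹ c hc
    rwa [inv_inv] at this
  have h2 : c * (n⁻¹ * c * n) = c * n⁻¹ * c * n := by simp only [mul_assoc]
  have h3 : Commute (c * n⁻¹ * c) n := (N_comm hE hs hS ha hb hn (hcN _ (inv_mem hn))).symm
  rw [h2, h3.mul_pow] at h1
  have h4 : (c * n⁻¹ * c) ^ 4 = c * (n ^ 4)⁻¹ * c := by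
    simp only [pow_succ, pow_zero, one_mul, mul_inv_rev, mul_assoc]
    simp only [canc hc2]
  rw [h4] at h1
  have h5 : n ^ 4 = (c * (n ^ 4)⁻¹ * c)⁻¹ := eq_inv_of_mul_eq_one_right h1
  rw [mul_inv_rev, mul_inv_rev, inv_inv, inv_eq hc2, ← mul_assoc] at h5
  exact h5.symm

theorem four_central {n : G} (hn : n ∈ N0 s a b) {g : G} (hg : g ∈ closure ({a, b, s} : Set G)) :
    Commute (n ^ 4) g := by
  have ha2 := hE.inv a ha
  have hb2 := hE.inv b hb
  have fa := four_fix hE hs hS ha hb hn ha (fun x hx => conj_a_N0 hE ha hx)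
  have fb := four_fix hE hs hS ha hb hn hb (fun x hx => conj_b_N0 hE ha hb hx)
  have key : ∀ c : G, c * c = 1 → c * n ^ 4 * c = n ^ 4 → n ^ 4 * c = c * n ^ 4 := by
    intro c hc h
    calc n ^ 4 * c = c * n ^ 4 * c * c := by rw [h]
      _ = c * n ^ 4 := by rw [mul_assoc, hc, mul_one]
  have h1 : closure ({a, b, s} : Set G) ≤ centralizer {n ^ 4} := by
    rw [closure_le]
    rintro x hx
    rw [SetLike.mem_coe, mem_centralizer_singleton_iff]
    rcases hx with rfl | rfl | rfl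
    · exact (key _ ha2 fa).symm
    · exact (key _ hb2 fb).symm
    · have h2 : n ^ 4 ∈ N1 x a b := by
        rw [← fa]
        exact conj_a_N0 hE ha (pow_mem hn 4)
      exact N_comm hE hs hS ha hb (s_mem_N0 x a b) h2
  exact (mem_centralizer_singleton_iff.mp (h1 hg)).symm

omit hE hs hS ha hb in
theorem conj_s_N0 {x : G} (hx : x ∈ N0 s a b) : s * x * s ∈ N0 s a b :=
  mul_mem (mul_mem (s_mem_N0 s a b) hx) (s_mem_N0 s a b)

theorem conj_s_N1 {x : G} (hx : x ∈ N1 s a b) : s * x * s ∈ N1 s a b := by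
  have h := (N_comm hE hs hS ha hb (s_mem_N0 s a b) hx).eq
  rw [h, mul_assoc, hs, mul_one]
  exact hx

/-- every element of `⟨a,b,s⟩` permutes `{N0, N1}` -/
theorem conj_dich {g : G} (hg : g ∈ closure ({a, b, s} : Set G)) :
    ((∀ x ∈ N0 s a b, g * x * g⁻¹ ∈ N0 s a b) ∧ (∀ x ∈ N1 s a b, g * x * g⁻¹ ∈ N1 s a b)) ∨
    ((∀ x ∈ N0 s a b, g * x * g⁻¹ ∈ N1 s a b) ∧ (∀ x ∈ N1 s a b, g * x * g⁻¹ ∈ N0 s a b)) := by
  have ha2 := hE.inv a ha
  have hb2 := hE.inv b hb
  have step : ∀ c ∈ ({a, b, s} : Set G), ∀ y : G,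
      ((∀ x ∈ N0 s a b, y * x * y⁻¹ ∈ N0 s a b) ∧ (∀ x ∈ N1 s a b, y * x * y⁻¹ ∈ N1 s a b)) ∨
      ((∀ x ∈ N0 s a b, y * x * y⁻¹ ∈ N1 s a b) ∧ (∀ x ∈ N1 s a b, y * x * y⁻¹ ∈ N0 s a b)) →
      ((∀ x ∈ N0 s a b, c * y * x * (c * y)⁻¹ ∈ N0 s a b) ∧
        (∀ x ∈ N1 s a b, c * y * x * (c * y)⁻¹ ∈ N1 s a b)) ∨
      ((∀ x ∈ N0 s a b, c * y * x * (c * y)⁻¹ ∈ N1 s a b) ∧
        (∀ x ∈ N1 s a b, c * y * x * (c * y)⁻¹ ∈ N0 s a b)) := by
    intro c hc y hy
    have e : c * c = 1 → ∀ x : G, c * y * x * (c * y)⁻¹ = c * (y * x * y⁻¹) * c := by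
      intro hc2 x
      rw [mul_inv_rev, inv_eq hc2]
      simp only [mul_assoc]
    rcases hc with rfl | rfl | rfl
    · simp only [e ha2]
      rcases hy with ⟨h0, h1⟩ | ⟨h0, h1⟩
      · exact Or.inr ⟨fun x hx => conj_a_N0 hE ha (h0 x hx), fun x hx => conj_a_N1 hE ha (h1 x hx)⟩
      · exact Or.inl ⟨fun x hx => conj_a_N1 hE ha (h0 x hx), fun x hx => conj_a_N0 hE ha (h1 x hx)⟩
    · simp only [e hb2]
      rcases hy with ⟨h0, h1⟩ | ⟨h0, h1⟩
      · exact Or.inr ⟨fun x hx => conj_b_N0 hE ha hb (h0 x hx),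
          fun x hx => conj_b_N1 hE ha hb (h1 x hx)⟩
      · exact Or.inl ⟨fun x hx => conj_b_N1 hE ha hb (h0 x hx),
          fun x hx => conj_b_N0 hE ha hb (h1 x hx)⟩
    · simp only [e hs]
      rcases hy with ⟨h0, h1⟩ | ⟨h0, h1⟩
      · exact Or.inl ⟨fun x hx => conj_s_N0 (h0 x hx), fun x hx => conj_s_N1 hE hs hS ha hb (h1 x hx)⟩
      · exact Or.inr ⟨fun x hx => conj_s_N1 hE hs hS ha hb (h0 x hx), fun x hx => conj_s_N0 (h1 x hx)⟩
  refine closure_induction_left (p := fun y _ =>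
      ((∀ x ∈ N0 s a b, y * x * y⁻¹ ∈ N0 s a b) ∧ (∀ x ∈ N1 s a b, y * x * y⁻¹ ∈ N1 s a b)) ∨
      ((∀ x ∈ N0 s a b, y * x * y⁻¹ ∈ N1 s a b) ∧ (∀ x ∈ N1 s a b, y * x * y⁻¹ ∈ N0 s a b)))
      ?_ ?_ ?_ hg
  · left
    constructor <;> intro x hx <;> simpa using hx
  · intro x hx y _ hy
    exact step x hx y hy
  · intro x hx y _ hy
    have hx2 : x * x = 1 := by
      rcases hx with rfl | rfl | rfl
      · exact ha2
      · exact hb2
      · exact hs
    rw [inv_eq hx2]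
    exact step x hx y hy

/-- the group of fourth powers -/
def Kg (s a b : G) : Subgroup G := closure {y | ∃ n ∈ N0 s a b, y = n ^ 4}

theorem Kg_comm {x g : G} (hx : x ∈ Kg s a b) (hg : g ∈ closure ({a, b, s} : Set G)) : Commute x g := by
  have h1 : Kg s a b ≤ centralizer {g} := by
    unfold Kg
    rw [closure_le]
    rintro _ ⟨n, hn, rfl⟩
    rw [SetLike.mem_coe, mem_centralizer_singleton_iff]
    exact (four_central hE hs hS ha hb hn hg)
  exact (mem_centralizer_singleton_iff.mp (h1 hx))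

theorem four_ss {g : G} (hg : g ∈ closure ({a, b, s} : Set G)) :
    c2 s (g * s * g⁻¹) * c2 s (g * s * g⁻¹) ∈ Kg s a b := by
  have h4 : c2 s (g * s * g⁻¹) * c2 s (g * s * g⁻¹) = (s * (g * s * g⁻¹)) ^ 4 := by
    simp only [c2_def, pow_succ, pow_zero, one_mul, mul_assoc]
  rw [h4]
  have h0 : g * s * g⁻¹ ∈ N0 s a b ∨ g * s * g⁻¹ ∈ N1 s a b := by
    rcases conj_dich hE hs hS ha hb hg with ⟨h, _⟩ | ⟨h, _⟩
    · exact Or.inl (h s (s_mem_N0 s a b))
    · exact Or.inr (h s (s_mem_N0 s a b))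
  rcases h0 with h | h
  · exact subset_closure ⟨_, mul_mem (s_mem_N0 s a b) h, rfl⟩
  · have hc := N_comm hE hs hS ha hb (s_mem_N0 s a b) h
    have h2 : (s * (g * s * g⁻¹)) ^ 2 = 1 := by
      rw [hc.mul_pow]
      have e : (g * s * g⁻¹) ^ 2 = g * (s * s) * g⁻¹ := by
        rw [pow_two]; group
      rw [e, pow_two, hs]
      group
    have h3 : (s * (g * s * g⁻¹)) ^ 4 = 1 := by
      rw [show 4 = 2 * 2 from rfl, pow_mul, h2, one_pow]
    rw [h3]
    exact one_mem _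

/-- the section -/
theorem sec (hG : V5 G) : (c2 a s * b) ^ 4 ∈ Kg s a b ∧ (c2 a b * s) ^ 4 ∈ Kg s a b := by
  set H : Subgroup G := closure ({a, b, s} : Set G) with hH
  set K : Subgroup H := (Kg s a b).subgroupOf H with hK
  have haH : a ∈ H := subset_closure (by simp)
  have hbH : b ∈ H := subset_closure (by simp)
  have hsH : s ∈ H := subset_closure (by simp)
  have hKn : K.Normal := by
    constructor
    intro n hn g
    rw [hK, mem_subgroupOf] at hn ⊢
    have h := (Kg_comm hE hs hS ha hb hn g.2).eq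
    have e : ((g * n * g⁻¹ : H) : G) = (n : G) := by
      push_cast
      rw [← h, mul_assoc, mul_inv_cancel, mul_one]
    rw [e]
    exact hn
  let f : H →* H ⧸ K := QuotientGroup.mk' K
  have hf : Function.Surjective f := QuotientGroup.mk'_surjective K
  have hfone : ∀ x : H, (x : G) ∈ Kg s a b → f x = 1 := by
    intro x hx
    exact (QuotientGroup.eq_one_iff x).mpr (by rw [hK, mem_subgroupOf]; exact hx)
  let sH : H := ⟨s, hsH⟩
  have hsH2 : sH * sH = 1 := Subtype.ext hs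
  let E' : Set (H ⧸ K) := {q | ∃ x : H, (x : G) ∈ E ∧ q = f x} ∪ {q | ∃ g : H, q = f (g * sH * g⁻¹)}
  have hc2 : ∀ x y : H, ((c2 x y : H) : G) = c2 (x : G) (y : G) := by
    intro x y
    simp only [c2_def]
    push_cast
    rfl
  have fc2 : ∀ x y : H, c2 (f x) (f y) = f (c2 x y) := by
    intro x y
    simp only [c2_def, map_mul]
  have law : DLaw E' := by
    constructor
    · left
      exact ⟨1, by simpa using hE.one, by simp⟩
    · rintro q (⟨x, hx, rfl⟩ | ⟨g, rfl⟩)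
      · rw [← map_mul]
        have : x * x = 1 := Subtype.ext (hE.inv _ hx)
        rw [this, map_one]
      · rw [← map_mul]
        have : g * sH * g⁻¹ * (g * sH * g⁻¹) = 1 := by
          have e : g * sH * g⁻¹ * (g * sH * g⁻¹) = g * (sH * sH) * g⁻¹ := by group
          rw [e, hsH2]; group
        rw [this, map_one]
    · intro q x hx
      obtain ⟨h, rfl⟩ := hf q
      rcases hx with ⟨x, hx, rfl⟩ | ⟨g, rfl⟩
      · left
        refine ⟨h * x * h⁻¹, ?_, by simp only [map_mul, map_inv]⟩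
        push_cast
        exact hE.conj _ _ hx
      · right
        refine ⟨h * g, ?_⟩
        rw [← map_inv, ← map_mul, ← map_mul]
        congr 1
        group
    · have sx : ∀ g x : H, (x : G) ∈ E → c2 (f (g * sH * g⁻¹)) (f x) * c2 (f (g * sH * g⁻¹)) (f x) = 1 := by
        intro g x hx
        rw [fc2, ← map_mul]
        have : c2 (g * sH * g⁻¹) x * c2 (g * sH * g⁻¹) x = 1 := by
          apply Subtype.ext
          push_cast [hc2]
          have h2 : c2 ((g : G) * s * (g : G)⁻¹) (x : G) = g * c2 s ((g : G)⁻¹ * x * g) * (g : G)⁻¹ := by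
            simp only [c2_def]; group
          show c2 ((g : G) * s * (g : G)⁻¹) (x : G) * c2 ((g : G) * s * (g : G)⁻¹) (x : G) = 1
          rw [h2]
          have h3 := four_of_pow (hS ((g : G)⁻¹ * x * g) (by simpa using hE.conj (g : G)⁻¹ x hx))
          have e : ∀ t : G, (g : G) * t * (g : G)⁻¹ * ((g : G) * t * (g : G)⁻¹) = g * (t * t) * (g : G)⁻¹ :=
            fun t => by group
          rw [e, h3]; group
        rw [this, map_one]
      rintro x (⟨x, hx, rfl⟩ | ⟨g, rfl⟩) y (⟨y, hy, rfl⟩ | ⟨k, rfl⟩)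
      · rw [fc2, ← map_mul]
        have : c2 x y * c2 x y = 1 := by
          apply Subtype.ext
          push_cast [hc2]
          exact hE.four _ hx _ hy
        rw [this, map_one]
      · have h1 := sx k x hx
        have h2 : f (k * sH * k⁻¹) * f (k * sH * k⁻¹) = 1 := by
          rw [← map_mul]
          have e : k * sH * k⁻¹ * (k * sH * k⁻¹) = k * (sH * sH) * k⁻¹ := by group
          rw [e, hsH2]
          have e2 : k * 1 * k⁻¹ = 1 := by group
          rw [e2, map_one]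
        have h3 : f x * f x = 1 := by
          rw [← map_mul]
          have : x * x = 1 := Subtype.ext (hE.inv _ hx)
          rw [this, map_one]
        exact c2_symm_one h2 h1
      · exact sx g y hy
      · rw [fc2, ← map_mul]
        apply hfone
        push_cast [hc2]
        show c2 ((g : G) * s * (g : G)⁻¹) ((k : G) * s * (k : G)⁻¹) *
          c2 ((g : G) * s * (g : G)⁻¹) ((k : G) * s * (k : G)⁻¹) ∈ _
        have h1 := four_ss hE hs hS ha hb (mul_mem (inv_mem g.2) k.2)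
        have e : c2 ((g : G) * s * (g : G)⁻¹) ((k : G) * s * (k : G)⁻¹) *
            c2 ((g : G) * s * (g : G)⁻¹) ((k : G) * s * (k : G)⁻¹) =
            g * (c2 s ((g : G)⁻¹ * k * s * ((g : G)⁻¹ * k)⁻¹) *
              c2 s ((g : G)⁻¹ * k * s * ((g : G)⁻¹ * k)⁻¹)) * (g : G)⁻¹ := by
          simp only [c2_def]; group
        rw [e]
        have h3 := (Kg_comm hE hs hS ha hb h1 g.2).eq
        rw [← h3, mul_assoc, mul_inv_cancel, mul_one]
        exact h1
  have ma : f ⟨a, haH⟩ ∈ E' := Or.inl ⟨_, ha, rfl⟩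
  have mb : f ⟨b, hbH⟩ ∈ E' := Or.inl ⟨_, hb, rfl⟩
  have ms : f sH ∈ E' := Or.inr ⟨1, by simp⟩
  have back : ∀ x y z : H, (c2 (f x) (f y) * f z) ^ 4 = 1 → (c2 (x : G) y * z) ^ 4 ∈ Kg s a b := by
    intro x y z h
    rw [fc2, ← map_mul, ← map_pow] at h
    have h1 : ((c2 x y * z) ^ 4 : H) ∈ K := (QuotientGroup.eq_one_iff _).mp h
    rw [hK, mem_subgroupOf] at h1
    push_cast [hc2] at h1
    exact h1
  exact ⟨back _ _ _ (hG H K E' law _ ma _ ms _ mb), back _ _ _ (hG H K E' law _ ma _ mb _ ms)⟩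

omit hE hs hS ha hb in
theorem pq_comm {p q w : G} (hwp : Commute w p) (hwq : Commute w q) (hpq : p * q = q * p * w ^ 2)
    (i j : ℤ) : q ^ j * p ^ i = p ^ i * q ^ j * w ^ (-(2 * i * j)) := by
  have h1 : q⁻¹ * p * q = p * w ^ (2 : ℤ) := by
    rw [mul_assoc, hpq, ← mul_assoc, ← mul_assoc, inv_mul_cancel, one_mul]
    norm_cast
  have hw2 : ∀ m : ℤ, Commute (w ^ m) p := fun m => hwp.zpow_left m
  have hw3 : ∀ m : ℤ, Commute (w ^ m) q := fun m => hwq.zpow_left m
  -- q⁻¹ p^i q = p^i w^(2 i)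
  have h2 : q⁻¹ * p ^ i * q = p ^ i * w ^ (2 * i) := by
    have h3 : q⁻¹ * p ^ i * q⁻¹⁻¹ = (q⁻¹ * p * q⁻¹⁻¹) ^ i := (conj_zpow).symm
    rw [inv_inv, h1] at h3
    rw [h3, ((hw2 2).symm).mul_zpow, ← zpow_mul]
  have h3 : q * p ^ i = p ^ i * q * w ^ (-(2 * i)) := by
    have h4 : p ^ i * q = q * (p ^ i * w ^ (2 * i)) := by rw [← h2]; group
    have h5 : p ^ i * q * w ^ (-(2 * i)) = q * p ^ i := by
      rw [h4]
      calc q * (p ^ i * w ^ (2 * i)) * w ^ (-(2 * i)) = q * p ^ i * (w ^ (2 * i) * w ^ (-(2 * i))) := by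
            simp only [mul_assoc]
        _ = q * p ^ i := by rw [← zpow_add, add_neg_cancel, zpow_zero, mul_one]
    exact h5.symm
  -- conjugation by q
  have h4 : q * p ^ i * q⁻¹ = p ^ i * w ^ (-(2 * i)) := by
    rw [h3, mul_assoc, mul_assoc, (hw3 (-(2 * i))).inv_right.eq, ← mul_assoc q, mul_inv_cancel, one_mul]
  have h5 : ∀ m : ℤ, q ^ m * p ^ i * (q ^ m)⁻¹ = p ^ i * w ^ (-(2 * i * m)) := by
    intro m
    induction m using Int.induction_on with
    | zero => simp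
    | succ m ih =>
      have e : q ^ ((m : ℤ) + 1) * p ^ i * (q ^ ((m : ℤ) + 1))⁻¹ =
          q * (q ^ (m : ℤ) * p ^ i * (q ^ (m : ℤ))⁻¹) * q⁻¹ := by
        rw [zpow_add, zpow_one, mul_inv_rev]
        have : q ^ (m : ℤ) * q = q * q ^ (m : ℤ) := by
          rw [← zpow_add_one, ← zpow_one_add, add_comm]
        rw [this]
        have h6 : q⁻¹ * (q ^ (m : ℤ))⁻¹ = (q ^ (m : ℤ))⁻¹ * q⁻¹ := by
          rw [← mul_inv_rev, ← mul_inv_rev, this]
        rw [h6]
        simp only [mul_assoc]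
      rw [e, ih]
      calc q * (p ^ i * w ^ (-(2 * i * (m : ℤ)))) * q⁻¹ =
            q * p ^ i * (w ^ (-(2 * i * (m : ℤ))) * q⁻¹) := by simp only [mul_assoc]
        _ = q * p ^ i * (q⁻¹ * w ^ (-(2 * i * (m : ℤ)))) := by rw [(hw3 _).inv_right.eq]
        _ = (q * p ^ i * q⁻¹) * w ^ (-(2 * i * (m : ℤ))) := by simp only [mul_assoc]
        _ = p ^ i * (w ^ (-(2 * i)) * w ^ (-(2 * i * (m : ℤ)))) := by rw [h4]; simp only [mul_assoc]
        _ = _ := by rw [← zpow_add]; congr 2; ring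
    | pred m ih =>
      have e : q ^ (-(m : ℤ) - 1) * p ^ i * (q ^ (-(m : ℤ) - 1))⁻¹ =
          q⁻¹ * (q ^ (-(m : ℤ)) * p ^ i * (q ^ (-(m : ℤ)))⁻¹) * q := by
        have h6 : q ^ (-(m : ℤ) - 1) = q⁻¹ * q ^ (-(m : ℤ)) := by
          rw [← zpow_neg_one, ← zpow_add]; congr 1; ring
        rw [h6, mul_inv_rev, inv_inv]
        simp only [mul_assoc]
      rw [e, ih]
      calc q⁻¹ * (p ^ i * w ^ (-(2 * i * -(m : ℤ)))) * q =
            q⁻¹ * p ^ i * (w ^ (-(2 * i * -(m : ℤ))) * q) := by simp only [mul_assoc]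
        _ = q⁻¹ * p ^ i * (q * w ^ (-(2 * i * -(m : ℤ)))) := by rw [(hw3 _).eq]
        _ = (q⁻¹ * p ^ i * q) * w ^ (-(2 * i * -(m : ℤ))) := by simp only [mul_assoc]
        _ = p ^ i * (w ^ (2 * i) * w ^ (-(2 * i * -(m : ℤ)))) := by rw [h2]; simp only [mul_assoc]
        _ = _ := by rw [← zpow_add]; congr 2; ring
  have h6 := h5 j
  have h7 : q ^ j * p ^ i = p ^ i * w ^ (-(2 * i * j)) * q ^ j := by
    rw [← h6]; group
  rw [h7, mul_assoc, ((hw3 (-(2 * i * j))).zpow_right j).eq, ← mul_assoc]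

omit hE hs hS ha hb in
theorem four_even {p q w : G} (hwp : Commute w p) (hwq : Commute w q) (hpq : p * q = q * p * w ^ 2)
    (hp : p ^ 4 = 1) (hq : q ^ 4 = 1) (hw : w ^ 4 = 1) (i j k : ℤ) : (p ^ i * q ^ j * w ^ k) ^ 4 = 1 := by
  have sq : ∀ i j k : ℤ, (p ^ i * q ^ j * w ^ k) ^ 2 = p ^ (2 * i) * q ^ (2 * j) * w ^ (2 * k - 2 * i * j) := by
    intro i j k
    have hk : Commute (w ^ k) (p ^ i * q ^ j) :=
      ((hwp.zpow_left k).zpow_right i).mul_right ((hwq.zpow_left k).zpow_right j)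
    rw [hk.symm.mul_pow, pow_two (p ^ i * q ^ j)]
    have e1 : p ^ i * q ^ j * (p ^ i * q ^ j) = p ^ i * (q ^ j * p ^ i) * q ^ j := by simp only [mul_assoc]
    rw [e1, pq_comm hwp hwq hpq i j]
    have e2 : p ^ i * (p ^ i * q ^ j * w ^ (-(2 * i * j))) * q ^ j =
        (p ^ i * p ^ i) * q ^ j * (w ^ (-(2 * i * j)) * q ^ j) := by simp only [mul_assoc]
    rw [e2, ((hwq.zpow_left (-(2 * i * j))).zpow_right j).eq]
    have e3 : p ^ i * p ^ i * q ^ j * (q ^ j * w ^ (-(2 * i * j))) * (w ^ k) ^ 2 =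
        (p ^ i * p ^ i) * (q ^ j * q ^ j) * (w ^ (-(2 * i * j)) * (w ^ k * w ^ k)) := by
      rw [pow_two]; simp only [mul_assoc]
    rw [e3, ← zpow_add, ← zpow_add, ← zpow_add, ← zpow_add]
    have a1 : i + i = 2 * i := by ring
    have a2 : j + j = 2 * j := by ring
    have a3 : -(2 * i * j) + (k + k) = 2 * k - 2 * i * j := by ring
    rw [a1, a2, a3]
  have h4 : ∀ x : G, x ^ 4 = (x ^ 2) ^ 2 := fun x => by rw [← pow_mul]
  rw [h4, sq, sq]
  have z4 : ∀ (x : G), x ^ 4 = 1 → ∀ m : ℤ, x ^ (4 * m) = 1 := by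
    intro x hx m
    rw [zpow_mul]
    have : x ^ (4 : ℤ) = 1 := by exact_mod_cast hx
    rw [this, one_zpow]
  have e1 : (2 * (2 * i) : ℤ) = 4 * i := by ring
  have e2 : (2 * (2 * j) : ℤ) = 4 * j := by ring
  have e3 : (2 * (2 * k - 2 * i * j) - 2 * (2 * i) * (2 * j) : ℤ) = 4 * (k - i * j - 2 * i * j) := by ring
  rw [e3, z4 w hw, e1, e2, z4 p hp, z4 q hq]
  simp

omit hE hs hS ha hb in
theorem four_odd {s p q w : G} (hs2 : s * s = 1) (hwp : Commute w p) (hwq : Commute w q)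
    (hws : Commute w s) (hpq : p * q = q * p * w ^ 2) (hw : w ^ 4 = 1)
    (hsp : s * p * s = p⁻¹) (hsq : s * q * s = q⁻¹) (i j k : ℤ) :
    (s * (p ^ i * q ^ j * w ^ k)) ^ 4 = 1 := by
  have cz : ∀ (x : G) (m : ℤ), s * x ^ m * s = (s * x * s) ^ m := by
    intro x m
    have h := (conj_zpow (a := s) (b := x) (i := m)).symm
    rw [inv_eq hs2] at h
    exact h
  have hswk : s * w ^ k * s = w ^ k := by
    rw [cz]
    have : s * w * s = w := by rw [← hws.eq, mul_assoc, hs2, mul_one]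
    rw [this]
  have e0 : s * (p ^ i * q ^ j * w ^ k) * s = p ^ (-i) * q ^ (-j) * w ^ k := by
    have e1 : s * (p ^ i * q ^ j * w ^ k) * s = (s * p ^ i * s) * (s * q ^ j * s) * (s * w ^ k * s) := by
      simp only [mul_assoc, canc hs2]
    rw [e1, cz p, cz q, hsp, hsq, hswk, inv_zpow, inv_zpow, ← zpow_neg, ← zpow_neg]
  have sq : (s * (p ^ i * q ^ j * w ^ k)) ^ 2 = w ^ (2 * k + 2 * i * j) := by
    have e1 : (s * (p ^ i * q ^ j * w ^ k)) ^ 2 = (s * (p ^ i * q ^ j * w ^ k) * s) * (p ^ i * q ^ j * w ^ k) := by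
      rw [pow_two]; simp only [mul_assoc]
    rw [e1, e0]
    have hk : Commute (w ^ k) (p ^ i) := (hwp.zpow_left k).zpow_right i
    have hk2 : Commute (w ^ k) (q ^ j) := (hwq.zpow_left k).zpow_right j
    have e2 : p ^ (-i) * q ^ (-j) * w ^ k * (p ^ i * q ^ j * w ^ k) =
        p ^ (-i) * (q ^ (-j) * p ^ i) * q ^ j * (w ^ k * w ^ k) := by
      calc p ^ (-i) * q ^ (-j) * w ^ k * (p ^ i * q ^ j * w ^ k) =
            p ^ (-i) * q ^ (-j) * (w ^ k * p ^ i) * q ^ j * w ^ k := by simp only [mul_assoc]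
        _ = p ^ (-i) * q ^ (-j) * p ^ i * (w ^ k * q ^ j) * w ^ k := by
            rw [hk.eq]; simp only [mul_assoc]
        _ = _ := by rw [hk2.eq]; simp only [mul_assoc]
    rw [e2, pq_comm hwp hwq hpq i (-j)]
    have e3 : p ^ (-i) * (p ^ i * q ^ (-j) * w ^ (-(2 * i * -j))) * q ^ j * (w ^ k * w ^ k) =
        (p ^ (-i) * p ^ i) * q ^ (-j) * (w ^ (-(2 * i * -j)) * q ^ j) * (w ^ k * w ^ k) := by
      simp only [mul_assoc]
    rw [e3, ((hwq.zpow_left (-(2 * i * -j))).zpow_right j).eq, ← zpow_add, neg_add_cancel, zpow_zero, one_mul]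
    have e4 : q ^ (-j) * (q ^ j * w ^ (-(2 * i * -j))) * (w ^ k * w ^ k) =
        (q ^ (-j) * q ^ j) * (w ^ (-(2 * i * -j)) * (w ^ k * w ^ k)) := by simp only [mul_assoc]
    rw [e4, ← zpow_add, neg_add_cancel, zpow_zero, one_mul, ← zpow_add, ← zpow_add]
    congr 1; ring
  have h4 : (s * (p ^ i * q ^ j * w ^ k)) ^ 4 = ((s * (p ^ i * q ^ j * w ^ k)) ^ 2) ^ 2 := by
    rw [← pow_mul]
  rw [h4, sq, pow_two, ← zpow_add]
  have e5 : (2 * k + 2 * i * j + (2 * k + 2 * i * j) : ℤ) = 4 * (k + i * j) := by ring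
  rw [e5, zpow_mul]
  have : w ^ (4 : ℤ) = 1 := by exact_mod_cast hw
  rw [this, one_zpow]

/-- **Closure lemma**: `([a,b]s)⁴ = 1` for every `S`-letter `s`. -/
theorem v5_S (hG : V5 G) : (c2 a b * s) ^ 4 = 1 := by
  have ha2 := hE.inv a ha
  have hb2 := hE.inv b hb
  obtain ⟨hv1, hv2⟩ := sec hE hs hS ha hb hG
  have hsH : s ∈ closure ({a, b, s} : Set G) := subset_closure (by simp)
  have hab4 : (a * b) ^ 4 = 1 := pow_of_four (hE.four a ha b hb)
  have oinv : (a * b)⁻¹ = b * a := by rw [mul_inv_rev, inv_eq ha2, inv_eq hb2]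
  -- the letters
  set f1 := ff s (a * b) 1 with hf1
  set f2 := ff s (a * b) 2 with hf2
  set f3 := ff s (a * b) 3 with hf3
  have m0 : s ∈ N0 s a b := s_mem_N0 s a b
  have m1 : f1 ∈ N0 s a b := subset_closure ⟨1, rfl⟩
  have m2 : f2 ∈ N0 s a b := subset_closure ⟨2, rfl⟩
  have m3 : f3 ∈ N0 s a b := subset_closure ⟨3, rfl⟩
  have f1s : f1 * f1 = 1 := ff_sq hs 1
  have f2s : f2 * f2 = 1 := ff_sq hs 2
  have f3s : f3 * f3 = 1 := ff_sq hs 3
  have invol : ∀ x y : G, x * x = 1 → y * y = 1 → Commute ((x * y) ^ 2) x → (x * y) ^ 4 = 1 := by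
    intro x y hx hy hc
    have h1 : x * (x * y) ^ 2 * x = ((x * y) ^ 2)⁻¹ := by
      rw [pow_two, mul_inv_rev, mul_inv_rev, inv_eq hx, inv_eq hy]
      simp only [mul_assoc]
      rw [canc hx]
    have h2 : x * (x * y) ^ 2 * x = (x * y) ^ 2 := by rw [← hc.eq, mul_assoc, hx, mul_one]
    have h3 : (x * y) ^ 2 = ((x * y) ^ 2)⁻¹ := h2.symm.trans h1
    calc (x * y) ^ 4 = (x * y) ^ 2 * (x * y) ^ 2 := by rw [← pow_add]
      _ = (x * y) ^ 2 * ((x * y) ^ 2)⁻¹ := by rw [← h3]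
      _ = 1 := mul_inv_cancel _
  -- (s f1)^4 = 1
  have hp4 : (s * f1) ^ 4 = 1 := by
    apply invol s f1 hs f1s
    have t0 : a * s * a ∈ N1 s a b := conj_a_N0 hE ha m0
    have t1 : b * s * b ∈ N1 s a b := conj_b_N0 hE ha hb m0
    have hf1' : f1 = b * a * s * (a * b) := by
      rw [hf1]; unfold ff
      rw [zpow_neg_one, zpow_one, oinv]
    have c1 := (N_comm hE hs hS ha hb m0 t0)
    have c2' := (N_comm hE hs hS ha hb m1 t0)
    have c3 := (N_comm hE hs hS ha hb m0 t1)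
    have c4 := (N_comm hE hs hS ha hb m1 t1)
    have e1 : (c2 a s * b) ^ 2 = (s * f1) * ((a * s * a) * (b * s * b)) := by
      have e2 : (c2 a s * b) ^ 2 = (a * s * a) * s * f1 * (b * s * b) := by
        rw [pow_two, hf1']
        simp only [c2_def, mul_assoc]
        rw [canc hb2]
      rw [e2]
      calc a * s * a * s * f1 * (b * s * b) = (a * s * a * s) * f1 * (b * s * b) := by simp only [mul_assoc]
        _ = s * (a * s * a) * f1 * (b * s * b) := by rw [c1.eq.symm]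
        _ = s * ((a * s * a) * f1) * (b * s * b) := by simp only [mul_assoc]
        _ = s * (f1 * (a * s * a)) * (b * s * b) := by rw [c2'.eq.symm]
        _ = _ := by simp only [mul_assoc]
    have cc : Commute (s * f1) ((a * s * a) * (b * s * b)) :=
      (c1.mul_left c2').mul_right (c3.mul_left c4)
    have e3 : (c2 a s * b) ^ 4 = (s * f1) ^ 2 * ((a * s * a) * (b * s * b)) ^ 2 := by
      rw [show 4 = 2 * 2 from rfl, pow_mul, e1, cc.mul_pow]
    have h1 := Kg_comm hE hs hS ha hb hv1 hsH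
    rw [e3] at h1
    have h2 : Commute (((a * s * a) * (b * s * b)) ^ 2) s := (c1.mul_right c3).symm.pow_left 2
    have h3 : (s * f1) ^ 2 = (s * f1) ^ 2 * ((a * s * a) * (b * s * b)) ^ 2 * (((a * s * a) * (b * s * b)) ^ 2)⁻¹ := by
      rw [mul_assoc, mul_inv_cancel, mul_one]
    rw [h3]
    exact h1.mul_left h2.inv_left
  -- ([a,b] s)^4 = (f2 s)^2
  have e4 : (c2 a b * s) ^ 4 = (f2 * s) ^ 2 := by
    have e5 : (c2 a b * s) ^ 2 = f2 * s := by
      have e6 : c2 a b = (a * b) ^ (2 : ℤ) := by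
        rw [c2_def]; norm_cast; rw [pow_two]
      have e7 : (a * b) ^ (2 : ℤ) = (a * b) ^ (-(2 : ℤ)) := by
        have h8 : (a * b) ^ (2 : ℤ) * (a * b) ^ (2 : ℤ) = 1 := by
          rw [← zpow_add]; exact_mod_cast hab4
        rw [zpow_neg]
        exact eq_inv_of_mul_eq_one_left h8
      rw [pow_two, e6]
      calc (a * b) ^ (2 : ℤ) * s * ((a * b) ^ (2 : ℤ) * s) =
            (a * b) ^ (-(2 : ℤ)) * s * (a * b) ^ (2 : ℤ) * s := by
              rw [← e7]; simp only [mul_assoc]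
        _ = f2 * s := rfl
    rw [show 4 = 2 * 2 from rfl, pow_mul, e5]
  have hr : (f2 * s) ^ 2 ∈ Kg s a b := by rw [← e4]; exact hv2
  have hKN1 : ∀ x ∈ Kg s a b, x ∈ N1 s a b := by
    intro x hx
    have h1 : Kg s a b ≤ N1 s a b := by
      unfold Kg
      rw [closure_le]
      rintro _ ⟨n, hn, rfl⟩
      have fa := four_fix hE hs hS ha hb hn ha (fun x hx => conj_a_N0 hE ha hx)
      rw [SetLike.mem_coe, ← fa]
      exact conj_a_N0 hE ha (pow_mem hn 4)
    exact h1 hx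
  have hq4 : (s * f2) ^ 4 = 1 := by
    apply invol s f2 hs f2s
    have h1 : (s * f2) ^ 2 = ((f2 * s) ^ 2)⁻¹ := by
      rw [pow_two, pow_two, mul_inv_rev, mul_inv_rev, inv_eq hs, inv_eq f2s]
    rw [h1]
    exact (Kg_comm hE hs hS ha hb hr hsH).inv_left
  -- the element `w`
  set w := f3 * f2 * f1 * s with hw
  have rotN1 : ∀ x ∈ N1 s a b, (a * b)⁻¹ * x * (a * b) ∈ N1 s a b := by
    intro x hx
    have h1 := conj_b_N0 hE ha hb (conj_a_N1 hE ha hx)
    rw [oinv]
    have e : b * (a * x * a) * b = b * a * x * (a * b) := by simp only [mul_assoc]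
    rwa [← e]
  have hwN1 : w ∈ N1 s a b := by
    have t1 : b * s * b ∈ N1 s a b := conj_b_N0 hE ha hb m0
    set n0 := b * s * b with hn0
    set n1 := (a * b)⁻¹ * n0 * (a * b) with hn1
    set n2 := (a * b)⁻¹ * n1 * (a * b) with hn2
    set n3 := (a * b)⁻¹ * n2 * (a * b) with hn3
    have k1 : n1 ∈ N1 s a b := rotN1 _ t1
    have k2 : n2 ∈ N1 s a b := rotN1 _ k1
    have k3 : n3 ∈ N1 s a b := rotN1 _ k2
    have h4 : (a * (s * b * s)) ^ 4 = 1 := by
      apply pow_of_four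
      apply hE.four a ha
      have := hE.conj s b hb
      rwa [inv_eq hs] at this
    have e1 : a * (s * b * s) = a * b * (n0 * s) := by
      rw [hn0]; simp only [mul_assoc]; rw [canc hb2]
    have g1 : (a * b)⁻¹ * s * (a * b) = f1 := by
      rw [hf1]; unfold ff; rw [zpow_neg_one, zpow_one]
    have g2 : (a * b)⁻¹ * f1 * (a * b) = f2 := ff_step s (a * b) 1
    have g3 : (a * b)⁻¹ * f2 * (a * b) = f3 := ff_step s (a * b) 2
    have e2 : (a * b * (n0 * s)) ^ 4 = (a * b) ^ 4 * ((n3 * f3) * (n2 * f2) * (n1 * f1) * (n0 * s)) := by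
      rw [hn3, hn2, hn1, ← g3, ← g2, ← g1]
      simp only [pow_succ, pow_zero, one_mul]
      group
    rw [e1, e2, hab4, one_mul] at h4
    have c : ∀ x ∈ N0 s a b, ∀ y ∈ N1 s a b, x * y = y * x := fun x hx y hy =>
      (N_comm hE hs hS ha hb hx hy).eq
    have e3 : (n3 * f3) * (n2 * f2) * (n1 * f1) * (n0 * s) = (n3 * n2 * n1 * n0) * w := by
      rw [hw]
      calc (n3 * f3) * (n2 * f2) * (n1 * f1) * (n0 * s) = n3 * (f3 * n2) * f2 * n1 * f1 * n0 * s := by
            simp only [mul_assoc]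
        _ = n3 * n2 * (f3 * f2 * n1) * f1 * n0 * s := by rw [c f3 m3 n2 k2]; simp only [mul_assoc]
        _ = n3 * n2 * n1 * (f3 * f2 * f1 * n0) * s := by
            rw [c (f3 * f2) (mul_mem m3 m2) n1 k1]; simp only [mul_assoc]
        _ = _ := by
            rw [c (f3 * f2 * f1) (mul_mem (mul_mem m3 m2) m1) n0 t1]; simp only [mul_assoc]
    rw [e3] at h4
    have e5 : w = (n3 * n2 * n1 * n0)⁻¹ := eq_inv_of_mul_eq_one_right h4
    rw [e5]
    exact inv_mem (mul_mem (mul_mem (mul_mem k3 k2) k1) t1)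
  have wc : ∀ x ∈ N0 s a b, Commute w x := fun x hx => (N_comm hE hs hS ha hb hx hwN1).symm
  obtain ⟨p, hp⟩ : ∃ p, p = s * f1 := ⟨_, rfl⟩
  obtain ⟨q, hq⟩ : ∃ q, q = s * f2 := ⟨_, rfl⟩
  have mp : p ∈ N0 s a b := by rw [hp]; exact mul_mem m0 m1
  have mq : q ∈ N0 s a b := by rw [hq]; exact mul_mem m0 m2
  have hp4 : p ^ 4 = 1 := by rw [hp]; exact hp4
  have hq4 : q ^ 4 = 1 := by rw [hq]; exact hq4
  have sps : s * p * s = p⁻¹ := by
    rw [hp, mul_inv_rev, inv_eq hs, inv_eq f1s, ← mul_assoc, hs, one_mul]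
  have sqs : s * q * s = q⁻¹ := by
    rw [hq, mul_inv_rev, inv_eq hs, inv_eq f2s, ← mul_assoc, hs, one_mul]
  have ef3 : f3 = w * (p * f2) := by
    rw [hw, hp]
    have : f3 * f2 * f1 * s * (s * f1 * f2) = f3 * (f2 * (f1 * (s * s) * f1) * f2) := by
      simp only [mul_assoc]
    rw [this, hs, mul_one, f1s, mul_one, f2s, mul_one]
  -- p q = q p w²
  have hpq : p * q = q * p * w ^ 2 := by
    have h1 : w ^ 2 * (p * f2) ^ 2 = 1 := by
      have hc : Commute w (p * f2) := wc _ (mul_mem mp m2)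
      rw [← hc.mul_pow, ← ef3, pow_two, f3s]
    have h2 : f2 * p⁻¹ * f2 = w ^ 2 * p := by
      -- (p f2)² = w^{-2}
      have h3 : (p * f2) ^ 2 = (w ^ 2)⁻¹ := eq_inv_of_mul_eq_one_right h1
      have h4 : f2 * p * f2 = p⁻¹ * (w ^ 2)⁻¹ := by
        rw [← h3, pow_two]
        simp only [mul_assoc]
        rw [inv_mul_cancel_left]
      have h5 : f2 * p⁻¹ * f2 = (f2 * p * f2)⁻¹ := by
        rw [mul_inv_rev, mul_inv_rev, inv_eq f2s, mul_assoc]
      rw [h5, h4, mul_inv_rev, inv_inv, inv_inv]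
    have h6 : q⁻¹ * p * q = w ^ 2 * p := by
      have hqi : q⁻¹ = f2 * s := by rw [hq, mul_inv_rev, inv_eq hs, inv_eq f2s]
      have h7 : q⁻¹ * p * q = f2 * p⁻¹ * f2 := by
        calc q⁻¹ * p * q = f2 * s * p * (s * f2) := by rw [hqi, hq]
          _ = f2 * (s * p * s) * f2 := by simp only [mul_assoc]
          _ = f2 * p⁻¹ * f2 := by rw [sps]
      rw [h7, h2]
    have h8 : p * q = q * (w ^ 2 * p) := by rw [← h6]; group
    rw [h8, ((wc p mp).pow_left 2).eq, mul_assoc]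
  -- w⁴ = 1
  have hw4 : w ^ 4 = 1 := by
    have h1 : Commute (q ^ 2) p := by
      have h2 : q ^ 2 = ((f2 * s) ^ 2)⁻¹ := by
        rw [hq, pow_two, pow_two, mul_inv_rev, mul_inv_rev, inv_eq hs, inv_eq f2s]
      rw [h2]
      exact (N_comm hE hs hS ha hb mp (hKN1 _ hr)).symm.inv_left
    have wq : Commute (w ^ 2) q := (wc q mq).pow_left 2
    have h3 : p * q ^ 2 = q ^ 2 * p * w ^ 4 := by
      calc p * q ^ 2 = p * q * q := by rw [pow_two, mul_assoc]
        _ = q * p * (w ^ 2 * q) := by rw [hpq]; simp only [mul_assoc]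
        _ = q * (p * q) * w ^ 2 := by rw [wq.eq]; simp only [mul_assoc]
        _ = q * (q * p * w ^ 2) * w ^ 2 := by rw [hpq]
        _ = q ^ 2 * p * (w ^ 2 * w ^ 2) := by rw [pow_two q]; simp only [mul_assoc]
        _ = q ^ 2 * p * w ^ 4 := by rw [← pow_add]
    rw [← h1.eq] at h3
    exact (mul_eq_left.mp h3.symm)
  -- every element of `N0` has fourth power `1`
  have form : ∀ x ∈ N0 s a b, (∃ i j k : ℤ, x = p ^ i * q ^ j * w ^ k) ∨
      (∃ i j k : ℤ, x = s * (p ^ i * q ^ j * w ^ k)) := by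
    let P : G → Prop := fun x => (∃ i j k : ℤ, x = p ^ i * q ^ j * w ^ k) ∨
      (∃ i j k : ℤ, x = s * (p ^ i * q ^ j * w ^ k))
    have wp := wc p mp
    have wq := wc q mq
    have ws := wc s m0
    have Ls : ∀ x, P x → P (s * x) := by
      rintro x (⟨i, j, k, rfl⟩ | ⟨i, j, k, rfl⟩)
      · exact Or.inr ⟨i, j, k, rfl⟩
      · exact Or.inl ⟨i, j, k, canc hs _⟩
    have sp : p * s = s * p⁻¹ := by rw [← sps]; simp only [mul_assoc]; rw [canc hs]
    have sq' : q * s = s * q⁻¹ := by rw [← sqs]; simp only [mul_assoc]; rw [canc hs]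
    have Lp : ∀ x, P x → P (p * x) := by
      rintro x (⟨i, j, k, rfl⟩ | ⟨i, j, k, rfl⟩)
      · refine Or.inl ⟨1 + i, j, k, ?_⟩
        rw [zpow_add, zpow_one]; simp only [mul_assoc]
      · refine Or.inr ⟨-1 + i, j, k, ?_⟩
        rw [← mul_assoc p s, sp, zpow_add, zpow_neg_one]; simp only [mul_assoc]
    have qe : ∀ i j k : ℤ, ∀ e : ℤ, q ^ e * (p ^ i * q ^ j * w ^ k) =
        p ^ i * q ^ (e + j) * w ^ (-(2 * i * e) + k) := by
      intro i j k e
      have h := pq_comm wp wq hpq i e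
      calc q ^ e * (p ^ i * q ^ j * w ^ k) = (q ^ e * p ^ i) * q ^ j * w ^ k := by simp only [mul_assoc]
        _ = p ^ i * q ^ e * (w ^ (-(2 * i * e)) * q ^ j) * w ^ k := by rw [h]; simp only [mul_assoc]
        _ = p ^ i * (q ^ e * q ^ j) * (w ^ (-(2 * i * e)) * w ^ k) := by
            rw [((wq.zpow_left (-(2 * i * e))).zpow_right j).eq]; simp only [mul_assoc]
        _ = _ := by rw [← zpow_add, ← zpow_add]
    have Lq : ∀ x, P x → P (q * x) := by
      rintro x (⟨i, j, k, rfl⟩ | ⟨i, j, k, rfl⟩)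
      · have h := qe i j k 1
        rw [zpow_one] at h
        exact Or.inl ⟨_, _, _, h⟩
      · have h := qe i j k (-1)
        rw [zpow_neg_one] at h
        refine Or.inr ⟨i, -1 + j, -(2 * i * -1) + k, ?_⟩
        rw [← mul_assoc q s, sq', mul_assoc s, h]
    have Lw : ∀ x, P x → P (w * x) := by
      have h : ∀ i j k : ℤ, w * (p ^ i * q ^ j * w ^ k) = p ^ i * q ^ j * w ^ (1 + k) := by
        intro i j k
        have hc : Commute w (p ^ i * q ^ j) := (wp.zpow_right i).mul_right (wq.zpow_right j)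
        rw [← mul_assoc, hc.eq, mul_assoc, zpow_add, zpow_one]
      rintro x (⟨i, j, k, rfl⟩ | ⟨i, j, k, rfl⟩)
      · exact Or.inl ⟨_, _, _, h i j k⟩
      · refine Or.inr ⟨i, j, 1 + k, ?_⟩
        rw [← mul_assoc w s, ws.eq, mul_assoc, h]
    have Lf1 : ∀ x, P x → P (f1 * x) := by
      intro x hx
      have e : f1 * x = s * (p * x) := by rw [hp]; simp only [mul_assoc]; rw [canc hs]
      rw [e]; exact Ls _ (Lp _ hx)
    have Lf2 : ∀ x, P x → P (f2 * x) := by
      intro x hx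
      have e : f2 * x = s * (q * x) := by rw [hq]; simp only [mul_assoc]; rw [canc hs]
      rw [e]; exact Ls _ (Lq _ hx)
    have Lf3 : ∀ x, P x → P (f3 * x) := by
      intro x hx
      rw [ef3]
      have e : w * (p * f2) * x = w * (p * (f2 * x)) := by simp only [mul_assoc]
      rw [e]; exact Lw _ (Lp _ (Lf2 _ hx))
    have Lf : ∀ k : ℤ, ∀ x, P x → P (ff s (a * b) k * x) := by
      intro k x hx
      have o4 : (a * b) ^ (4 : ℤ) = 1 := by exact_mod_cast hab4
      have per : ∀ m r : ℤ, ff s (a * b) (4 * m + r) = ff s (a * b) r := by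
        intro m r
        unfold ff
        have e1 : (a * b) ^ (4 * m + r) = (a * b) ^ r := by
          rw [zpow_add, zpow_mul, o4, one_zpow, one_mul]
        have e2 : (a * b) ^ (-(4 * m + r)) = (a * b) ^ (-r) := by
          rw [zpow_neg, e1, zpow_neg]
        rw [e1, e2]
      have hk : k = 4 * (k / 4) + k % 4 := (Int.mul_ediv_add_emod k 4).symm
      have h0 : 0 ≤ k % 4 := Int.emod_nonneg _ (by norm_num)
      have h4 : k % 4 < 4 := Int.emod_lt_of_pos _ (by norm_num)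
      rw [hk, per]
      generalize k % 4 = r at h0 h4
      have hr : r = 0 ∨ r = 1 ∨ r = 2 ∨ r = 3 := by omega
      rcases hr with rfl | rfl | rfl | rfl
      · rw [ff_zero]; exact Ls _ hx
      · exact Lf1 _ hx
      · exact Lf2 _ hx
      · exact Lf3 _ hx
    intro x hx
    refine closure_induction_left (p := fun x _ => P x) ?_ ?_ ?_ hx
    · exact Or.inl ⟨0, 0, 0, by simp⟩
    · rintro _ ⟨k, rfl⟩ y _ hy
      exact Lf k y hy
    · rintro _ ⟨k, rfl⟩ y _ hy
      rw [inv_eq (ff_sq hs k)]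
      exact Lf k y hy
  have exp4 : ∀ x ∈ N0 s a b, x ^ 4 = 1 := by
    intro x hx
    rcases form x hx with ⟨i, j, k, rfl⟩ | ⟨i, j, k, rfl⟩
    · exact four_even (wc p mp) (wc q mq) hpq hp4 hq4 hw4 i j k
    · exact four_odd hs (wc p mp) (wc q mq) (wc s m0) hpq hw4 sps sqs i j k
  have hK : Kg s a b = ⊥ := by
    unfold Kg
    rw [closure_eq_bot_iff]
    rintro _ ⟨n, hn, rfl⟩
    exact exp4 n hn
  rw [hK, mem_bot] at hv2
  exact hv2

end group

/-- a maximal `DLaw` set of a `V5` group is closed under commutators -/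
theorem c2_mem_of_v5 (hG : V5 G) {D : Set G} (hD : MaxLaw D) {a b : G} (ha : a ∈ D) (hb : b ∈ D) :
    c2 a b ∈ D := by
  have hE := hD.law
  have ha2 := hE.inv a ha
  have hb2 := hE.inv b hb
  have hz : c2 a b * c2 a b = 1 := hE.four a ha b hb
  have h1 : ∀ x ∈ D, ∀ y ∈ D, ∀ d ∈ D, (c2 x y * d) ^ 4 = 1 := fun x hx y hy d hd =>
    v5_S hE (hE.inv d hd) (fun e he => pow_of_four (hE.four d hd e he)) hx hy hG
  refine mem_of_class hD hz (fun d hd => four_of_pow (h1 a ha b hb d hd)) ?_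
  intro g
  have e : g * c2 a b * g⁻¹ = c2 (g * a * g⁻¹) (g * b * g⁻¹) := conj_c2 g a b
  rw [e]
  have hga := hE.conj g a ha
  have hgb := hE.conj g b hb
  exact four_of_pow (v5_S hE (hE.four _ hga _ hgb) (fun d hd => h1 _ hga _ hgb d hd) ha hb hG)

end Pool.Agent.Helper45.SV
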